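import Pool.Agent.Q100.CB.Final

/-!
# Connected bijections of `ℝⁿ` with non-connected inverse exist exactly for `n ≥ 2`
-/

set_option autoImplicit false

open Set

namespace Pool.Agent.Results.MP_8f6e3d_gt.AllDimensions

/-- `f` maps every connected set to a connected set. -/
def IsConnectedMap {X Y : Type*} [TopologicalSpace X] [TopologicalSpace Y] (f : X → Y) : Prop :=
  ∀ S : Set X, IsConnected S → IsConnected (f '' S)

/-- Betweenness for connected injections of the line. -/
theorem between (f : ℝ → ℝ) (hinj : Function.Injective f)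
    (hf : ∀ S : Set ℝ, IsPreconnected S → IsPreconnected (f '' S)) {x z y : ℝ} (hxz : x < z)
    (hzy : z < y) : f z ∈ uIcc (f x) (f y) := by
  have h1 : ∀ {p q r : ℝ}, p ≤ q → f r ∈ uIcc (f p) (f q) → r ∈ Icc p q := by
    intro p q r hpq hr
    have hc := (hf (Icc p q) isPreconnected_Icc).ordConnected
    have h2 := hc.uIcc_subset ⟨p, left_mem_Icc.2 hpq, rfl⟩ ⟨q, right_mem_Icc.2 hpq, rfl⟩ hr
    obtain ⟨s, hs, hsr⟩ := h2
    rwa [← hinj hsr]
  have h2 : f y ∉ uIcc (f x) (f z) := fun h => not_lt.2 (h1 hxz.le h).2 hzy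
  have h3 : f x ∉ uIcc (f z) (f y) := fun h => not_lt.2 (h1 hzy.le h).1 hxz
  simp only [mem_uIcc, not_or, not_and, not_le] at h2 h3 ⊢
  rcases le_total (f x) (f z) with h | h <;> rcases le_total (f z) (f y) with h' | h'
  · exact Or.inl ⟨h, h'⟩
  · exfalso
    rcases le_total (f x) (f y) with h'' | h''
    · exact not_lt.2 h' (h2.1 h'')
    · exact not_lt.2 h (h3.2 h'')
  · exfalso
    rcases le_total (f x) (f y) with h'' | h''
    · exact not_lt.2 h'' (h3.1 h)
    · exact not_lt.2 h'' (h2.2 h')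
  · exact Or.inr ⟨h', h⟩

/-- Dimension one: the inverse is connected. -/
theorem line (f : ℝ ≃ ℝ) (hf : ∀ S : Set ℝ, IsPreconnected S → IsPreconnected (f '' S))
    (S : Set ℝ) (hS : IsPreconnected S) : IsPreconnected (f.symm '' S) := by
  rw [isPreconnected_iff_ordConnected, ordConnected_iff]
  rintro _ ⟨a, ha, rfl⟩ _ ⟨b, hb, rfl⟩ hab z ⟨hz1, hz2⟩
  rcases eq_or_lt_of_le hz1 with h1 | h1
  · exact ⟨a, ha, h1⟩
  rcases eq_or_lt_of_le hz2 with h2 | h2
  · exact ⟨b, hb, h2.symm⟩
  have h3 := between f f.injective hf h1 h2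
  rw [Equiv.apply_symm_apply, Equiv.apply_symm_apply] at h3
  exact ⟨f z, hS.ordConnected.uIcc_subset ha hb h3, Equiv.symm_apply_apply f z⟩

/-- For an integer `n ≥ 1` there is a bijection `f` of `ℝⁿ` such that `f` maps connected sets to
connected sets and `f⁻¹` does not, if and only if `n ≥ 2`. -/
theorem result (n : ℕ) (hn : 1 ≤ n) :
    (∃ f : EuclideanSpace ℝ (Fin n) ≃ EuclideanSpace ℝ (Fin n),
      IsConnectedMap f ∧ ¬ IsConnectedMap f.symm) ↔ 2 ≤ n := by
  constructor
  · rintro ⟨f, hf, hf'⟩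
    by_contra hlt
    have h1 : n = 1 := by omega
    subst h1
    apply hf'
    let φ : EuclideanSpace ℝ (Fin 1) ≃ₜ ℝ :=
      (EuclideanSpace.equiv (Fin 1) ℝ).toHomeomorph.trans (Homeomorph.funUnique (Fin 1) ℝ)
    let g : ℝ ≃ ℝ := (φ.symm.toEquiv.trans f).trans φ.toEquiv
    have hg : ∀ S : Set ℝ, IsPreconnected S → IsPreconnected (g '' S) := by
      intro S hS
      rcases S.eq_empty_or_nonempty with rfl | hne
      · simpa using isPreconnected_empty
      · have h2 : g '' S = φ '' (f '' (φ.symm '' S)) := by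
          simp only [g, image_image]; rfl
        rw [h2]
        have h3 : IsConnected (φ.symm '' S) :=
          IsConnected.image ⟨hne, hS⟩ _ φ.symm.continuous.continuousOn
        exact ((hf _ h3).image _ φ.continuous.continuousOn).isPreconnected
    intro S hS
    refine ⟨hS.nonempty.image _, ?_⟩
    have h4 : f.symm '' S = φ.symm '' (g.symm '' (φ '' S)) := by
      simp only [g, image_image]
      congr 1
      funext x
      simp
    rw [h4]
    have h5 : IsPreconnected (φ '' S) := hS.isPreconnected.image _ φ.continuous.continuousOn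
    exact (line g hg _ h5).image _ φ.symm.continuous.continuousOn
  · intro h2
    obtain ⟨m, rfl⟩ : ∃ m, n = m + 2 := ⟨n - 2, by omega⟩
    let ℓ : EuclideanSpace ℝ (Fin (m + 2)) →L[ℝ] ℝ := EuclideanSpace.proj 0
    have hℓ : ∀ x, |ℓ x| ≤ ‖x‖ := fun x => by
      have := PiLp.norm_apply_le x 0
      simpa [ℓ] using this
    have he : ℓ (EuclideanSpace.single 0 1) = 1 := by simp [ℓ]
    obtain ⟨D⟩ := Pool.Agent.Q100.CB.exists_dig ℓ he
    have hu : ℓ (EuclideanSpace.single 1 2) = 0 := by simp [ℓ]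
    have hun : ‖(EuclideanSpace.single 1 2 : EuclideanSpace ℝ (Fin (m + 2)))‖ = 2 := by simp
    refine ⟨D.f, fun S hS => ⟨hS.nonempty.image _, D.f_connected he hS.isPreconnected⟩, ?_⟩
    intro hcon
    obtain ⟨C, hC, hC'⟩ := D.f_symm_not_connected hℓ he hu hun
    exact hC' (hcon C hC).isPreconnected

end Pool.Agent.Results.MP_8f6e3d_gt.AllDimensions
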